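import Mathlib
import Pool.Agent.Y268.D3.Stm
import Pool.Agent.H873R2.Kad.GT
import Pool.Agent.H747R2.Kad.Fourth
import Pool.Agent.H143R2.Kad.Trunc
import Pool.Agent.H880R2.Kad.GtSa

/-!
Averaged forms are dominated by the trace.
-/

open scoped ComplexOrder InnerProductSpace ComplexConjugate Topology
open Finset Filter

noncomputable section

namespace Y445.D3

open H759R2.Kad H711R2.KG Y268.D3

/-! ### The Hilbert space of a form -/

/-- A copy of the algebra which carries the semi-norm of a form. -/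
structure FB {B : Type} [CStarAlgebra B] where
  f : B → B → ℂ
  C : ℝ
  h : IsFormB f C

set_option linter.unusedVariables false in
/-- A copy of the algebra which carries the semi-norm of a form. -/
def Pre {B : Type} [CStarAlgebra B] (F : FB (B := B)) : Type := B

section pre

variable {B : Type} [CStarAlgebra B] (F : FB (B := B))

instance : AddCommGroup (Pre F) := inferInstanceAs (AddCommGroup B)

instance : Module ℂ (Pre F) := inferInstanceAs (Module ℂ B)

/-- The identity. -/
def toPre : B ≃ₗ[ℂ] Pre F := LinearEquiv.refl ℂ _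

/-- The identity. -/
def ofPre : Pre F ≃ₗ[ℂ] B := (toPre F).symm

abbrev preCore : PreInnerProductSpace.Core ℂ (Pre F) where
  inner a b := F.f (ofPre F a) (ofPre F b)
  conj_inner_symm a b := (F.h.herm (ofPre F b) (ofPre F a)).symm
  re_inner_nonneg a := F.h.pos _
  add_left a b c := by
    rw [map_add, F.h.herm (ofPre F c), F.h.add, map_add, ← F.h.herm, ← F.h.herm]
  smul_left a b r := by
    rw [map_smul, F.h.herm (ofPre F b), F.h.smul, map_mul, ← F.h.herm]

instance : SeminormedAddCommGroup (Pre F) :=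
  InnerProductSpace.Core.toSeminormedAddCommGroup (c := preCore F)

instance : InnerProductSpace ℂ (Pre F) := InnerProductSpace.ofCore (preCore F)

theorem pre_inner (a b : Pre F) : ⟪a, b⟫_ℂ = F.f (ofPre F a) (ofPre F b) := rfl

/-- The Hilbert space. -/
abbrev Hil : Type := UniformSpace.Completion (Pre F)

/-- The map to the Hilbert space. -/
def emb : B →ₗ[ℂ] Hil F where
  toFun b := ((toPre F b : Pre F) : Hil F)
  map_add' a b := by
    rw [map_add, UniformSpace.Completion.coe_add]
  map_smul' c a := by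
    rw [map_smul, UniformSpace.Completion.coe_smul, RingHom.id_apply]

theorem emb_norm (b : B) : ‖emb F b‖ ^ 2 = (F.f b b).re := by
  have h1 : ‖emb F b‖ = ‖(toPre F b : Pre F)‖ := UniformSpace.Completion.norm_coe _
  have h2 := @inner_self_eq_norm_sq ℂ (Pre F) _ _ _ (toPre F b)
  rw [h1, ← h2, pre_inner]
  rfl

end pre

/-- The little Grothendieck inequality for forms. -/
theorem gt_form {B : Type} [CStarAlgebra B] [PartialOrder B] [StarOrderedRing B]
    {f : B → B → ℂ} {C : ℝ} (hf : IsFormB f C) (hC : 0 ≤ C) (κ : Type) [Fintype κ] (x : κ → B) :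
    ∑ k, (f (x k) (x k)).re ≤
      3 * C * (‖∑ k, star (x k) * x k‖ + ‖∑ k, x k * star (x k)‖) := by
  have h := (prove_gt (prove_gtsa prove_fourth prove_trunc) : St_gt.{0, 0}) B (Hil ⟨f, C, hf⟩) (emb ⟨f, C, hf⟩) (√C)
    (Real.sqrt_nonneg _) (by
      intro b
      have h1 := emb_norm ⟨f, C, hf⟩ b
      have h2 : (f b b).re ≤ C * ‖b‖ * ‖b‖ := (Complex.re_le_norm _).trans (hf.bd b b)
      have h3 : ‖emb ⟨f, C, hf⟩ b‖ ^ 2 ≤ (√C * ‖b‖) ^ 2 := by
        rw [h1, mul_pow, Real.sq_sqrt hC]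
        calc (f b b).re ≤ C * ‖b‖ * ‖b‖ := h2
          _ = _ := by ring
      exact (pow_le_pow_iff_left₀ (norm_nonneg _) (by positivity) two_ne_zero).1 h3) κ x
  rw [Real.sq_sqrt hC] at h
  simpa only [emb_norm] using h

/-! ### Forms -/

section forms

variable {B : Type} [CStarAlgebra B] {f : B → B → ℂ} {C : ℝ}

theorem form_smul (hf : IsFormB f C) (c : ℝ) (x : B) :
    f ((c : ℂ) • x) ((c : ℂ) • x) = (c : ℂ) ^ 2 * f x x := by
  rw [hf.smul, hf.herm x, hf.smul, map_mul, ← hf.herm, Complex.conj_ofReal]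
  ring

end forms

/-- The inequality for weights. -/
theorem gt_weights {B : Type} [CStarAlgebra B] [PartialOrder B] [StarOrderedRing B]
    {f : B → B → ℂ} {C : ℝ} (hf : IsFormB f C) (hC : 0 ≤ C) (y : B) {n m : ℕ}
    (t : Fin n → ℝ) (s : Fin n → unitary B) (u : Fin m → ℝ) (r : Fin m → unitary B)
    (ht : ∀ i, 0 ≤ t i) (ht1 : ∑ i, t i = 1) (hu : ∀ i, 0 ≤ u i) (hu1 : ∑ i, u i = 1) :
    (∑ j, (u j : ℂ) * ∑ i, (t i : ℂ) *
        f ((s i : B) * y * (r j : B)) ((s i : B) * y * (r j : B))).re ≤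
      3 * C * (‖∑ j, (u j : ℂ) • (star (r j : B) * (star y * y) * (r j : B))‖ +
        ‖∑ i, (t i : ℂ) • ((s i : B) * (y * star y) * star (s i : B))‖) := by
  have h := gt_form hf hC (Fin n × Fin m)
    (fun k => ((√(t k.1 * u k.2) : ℝ) : ℂ) • ((s k.1 : B) * y * (r k.2 : B)))
  have hsq : ∀ k : Fin n × Fin m, ((√(t k.1 * u k.2) : ℝ) : ℂ) ^ 2 = (t k.1 : ℂ) * (u k.2 : ℂ) := by
    intro k
    rw [← Complex.ofReal_pow, Real.sq_sqrt (mul_nonneg (ht _) (hu _)), Complex.ofReal_mul]
  have e1 : ∑ k : Fin n × Fin m, (f (((√(t k.1 * u k.2) : ℝ) : ℂ) • ((s k.1 : B) * y * (r k.2 : B)))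
      (((√(t k.1 * u k.2) : ℝ) : ℂ) • ((s k.1 : B) * y * (r k.2 : B)))).re =
      (∑ j, (u j : ℂ) * ∑ i, (t i : ℂ) *
        f ((s i : B) * y * (r j : B)) ((s i : B) * y * (r j : B))).re := by
    rw [← Complex.re_sum, Fintype.sum_prod_type_right]
    congr 1
    refine Finset.sum_congr rfl fun j _ => ?_
    rw [Finset.mul_sum]
    refine Finset.sum_congr rfl fun i _ => ?_
    rw [form_smul hf, hsq (i, j)]
    ring
  have e2 : ∑ k : Fin n × Fin m, star (((√(t k.1 * u k.2) : ℝ) : ℂ) •
      ((s k.1 : B) * y * (r k.2 : B))) *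
      (((√(t k.1 * u k.2) : ℝ) : ℂ) • ((s k.1 : B) * y * (r k.2 : B))) =
      ∑ j, (u j : ℂ) • (star (r j : B) * (star y * y) * (r j : B)) := by
    rw [Fintype.sum_prod_type_right]
    refine Finset.sum_congr rfl fun j _ => ?_
    have e3 : ∀ i : Fin n, star (((√(t i * u j) : ℝ) : ℂ) • ((s i : B) * y * (r j : B))) *
        (((√(t i * u j) : ℝ) : ℂ) • ((s i : B) * y * (r j : B))) =
        ((t i : ℂ) * (u j : ℂ)) • (star (r j : B) * (star y * y) * (r j : B)) := by
      intro i
      rw [star_smul, smul_mul_smul_comm, Complex.star_def, Complex.conj_ofReal, ← pow_two,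
        hsq (i, j), star_mul, star_mul]
      congr 1
      have hs : star (s i : B) * (s i : B) = 1 := Unitary.coe_star_mul_self (s i)
      calc star (r j : B) * (star y * star (s i : B)) * ((s i : B) * y * (r j : B)) =
          star (r j : B) * star y * (star (s i : B) * (s i : B)) * y * (r j : B) := by
            simp only [mul_assoc]
        _ = _ := by rw [hs, mul_one]; simp only [mul_assoc]
    simp only [e3]
    rw [← Finset.sum_smul, ← Finset.sum_mul, ← Complex.ofReal_sum, ht1, Complex.ofReal_one,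
      one_mul]
  have e4 : ∑ k : Fin n × Fin m, (((√(t k.1 * u k.2) : ℝ) : ℂ) •
      ((s k.1 : B) * y * (r k.2 : B))) *
      star (((√(t k.1 * u k.2) : ℝ) : ℂ) • ((s k.1 : B) * y * (r k.2 : B))) =
      ∑ i, (t i : ℂ) • ((s i : B) * (y * star y) * star (s i : B)) := by
    rw [Fintype.sum_prod_type]
    refine Finset.sum_congr rfl fun i _ => ?_
    have e3 : ∀ j : Fin m, (((√(t i * u j) : ℝ) : ℂ) • ((s i : B) * y * (r j : B))) *
        star (((√(t i * u j) : ℝ) : ℂ) • ((s i : B) * y * (r j : B))) =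
        ((t i : ℂ) * (u j : ℂ)) • ((s i : B) * (y * star y) * star (s i : B)) := by
      intro j
      rw [star_smul, smul_mul_smul_comm, Complex.star_def, Complex.conj_ofReal, ← pow_two,
        hsq (i, j), star_mul, star_mul]
      congr 1
      have hr : (r j : B) * star (r j : B) = 1 := Unitary.coe_mul_star_self (r j)
      calc (s i : B) * y * (r j : B) * (star (r j : B) * (star y * star (s i : B))) =
          (s i : B) * y * ((r j : B) * star (r j : B)) * star y * star (s i : B) := by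
            simp only [mul_assoc]
        _ = _ := by rw [hr, mul_one]; simp only [mul_assoc]
    simp only [e3]
    rw [← Finset.sum_smul, ← Finset.mul_sum, ← Complex.ofReal_sum, hu1, Complex.ofReal_one,
      mul_one]
  rw [e1, e2, e4] at h
  exact h

/-! ### The theorem -/

/-- Weighted means for a pair (algebra element, scalar). -/
theorem mazur_pair (hM : S_mazur) {B : Type} [CStarAlgebra B] {S : Type} (E : Mean S)
    (a : S → B) (g : S → ℂ) (A D : ℝ) (ha : ∀ s, ‖a s‖ ≤ A) (hg : ∀ s, ‖g s‖ ≤ D) (a₀ : B)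
    (h0 : ∀ φ : B →L[ℂ] ℂ, E.E (fun s => φ (a s)) = φ a₀) {ε : ℝ} (hε : 0 < ε) :
    ∃ (n : ℕ) (t : Fin n → ℝ) (s : Fin n → S), (∀ i, 0 ≤ t i) ∧ ∑ i, t i = 1 ∧
      ‖∑ i, (t i : ℂ) • a (s i) - a₀‖ ≤ ε ∧ ‖∑ i, (t i : ℂ) * g (s i) - E.E g‖ ≤ ε := by
  obtain ⟨n, t, s, ht, ht1, hn⟩ := hM S E (B × ℂ) (fun s => (a s, g s)) (max A D)
    (fun s => by
      rw [Prod.norm_def]
      exact max_le_max (ha s) (hg s)) (a₀, E.E g) (by
      intro φ
      have e1 : ∀ (b : B) (z : ℂ), φ (b, z) = φ.comp (ContinuousLinearMap.inl ℂ B ℂ) b +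
          z * φ (0, 1) := by
        intro b z
        have e2 : (b, z) = (b, (0 : ℂ)) + z • ((0 : B), (1 : ℂ)) := by
          ext <;> simp
        rw [e2, map_add, map_smul, smul_eq_mul]
        rfl
      have e3 : (fun s => φ (a s, g s)) = fun s =>
          φ.comp (ContinuousLinearMap.inl ℂ B ℂ) (a s) + g s * φ (0, 1) := by
        funext s
        exact e1 _ _
      rw [e3, E.add', E.mul_const, h0, ← e1]) ε hε
  refine ⟨n, t, s, ht, ht1, ?_, ?_⟩
  · refine le_trans ?_ hn
    have e : (∑ i, (t i : ℂ) • ((a (s i), g (s i)) : B × ℂ) - (a₀, E.E g)).1 =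
        ∑ i, (t i : ℂ) • a (s i) - a₀ := by
      rw [Prod.fst_sub, Prod.fst_sum]
      rfl
    rw [← e]
    exact norm_fst_le _
  · refine le_trans ?_ hn
    have e : (∑ i, (t i : ℂ) • ((a (s i), g (s i)) : B × ℂ) - (a₀, E.E g)).2 =
        ∑ i, (t i : ℂ) * g (s i) - E.E g := by
      rw [Prod.snd_sub, Prod.snd_sum]
      rfl
    rw [← e]
    exact norm_snd_le _

theorem isoGT : S_mazur → S_real → S_isoGT := by
  intro hM _ B _ _ _ τ hτ E hE f C hf y
  have hnt : Nontrivial B := by
    refine ⟨⟨1, 0, fun h => ?_⟩⟩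
    have h1 := hτ.one
    rw [h, map_zero] at h1
    exact zero_ne_one h1
  have hC : 0 ≤ C := by
    have h1 := (norm_nonneg _).trans (hf.bd 1 1)
    rwa [norm_one, mul_one, mul_one] at h1
  set g : unitary B → unitary B → ℂ :=
    fun h r => f ((h : B) * y * (r : B)) ((h : B) * y * (r : B)) with hg
  have hgb : ∀ h r, ‖g h r‖ ≤ C * ‖y‖ * ‖y‖ := by
    intro h r
    have h1 := hf.bd ((h : B) * y * (r : B)) ((h : B) * y * (r : B))
    rwa [CStarRing.norm_mul_coe_unitary, CStarRing.norm_coe_unitary_mul] at h1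
  have hGb : ∀ h, ‖E.E (g h)‖ ≤ C * ‖y‖ * ‖y‖ := fun h => E.bd _ _ (hgb h)
  have hcomm : τ (y * star y) = τ (star y * y) := hτ.comm _ _
  have hpos : 0 ≤ τ (star y * y) := hτ.pos y
  have hre : ‖τ (star y * y)‖ = (τ (star y * y)).re := by
    obtain ⟨h1, h2⟩ := Complex.le_def.1 hpos
    have h3 : τ (star y * y) = (((τ (star y * y)).re : ℝ) : ℂ) :=
      Complex.ext (by simp) (by simpa using h2.symm)
    rw [h3, Complex.norm_real, Complex.ofReal_re, Real.norm_of_nonneg h1]
  have hnalg : ∀ z : ℂ, ‖z • (1 : B)‖ = ‖z‖ := fun z => by rw [norm_smul, norm_one, mul_one]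
  have key : ∀ ε : ℝ, 0 < ε → (E.E (fun h => E.E (g h))).re ≤
      6 * C * (τ (star y * y)).re + (6 * C + 2) * ε := by
    intro ε hε
    obtain ⟨n, t, s, ht, ht1, hn1, hn2⟩ := mazur_pair hM E
      (fun h : unitary B => (h : B) * (y * star y) * star (h : B)) (fun h => E.E (g h))
      ‖y * star y‖ (C * ‖y‖ * ‖y‖)
      (fun h => by
        rw [← Unitary.coe_star, CStarRing.norm_mul_coe_unitary, CStarRing.norm_coe_unitary_mul])
      hGb (τ (star y * y) • (1 : B))
      (fun φ => by rw [hE.dixr φ (y * star y), map_smul, smul_eq_mul, hcomm]) hε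
    obtain ⟨m, u, r, hu, hu1, hm1, hm2⟩ := mazur_pair hM E
      (fun h : unitary B => star (h : B) * (star y * y) * (h : B))
      (fun r => ∑ i, (t i : ℂ) * g (s i) r)
      ‖star y * y‖ (C * ‖y‖ * ‖y‖)
      (fun h => by
        rw [← Unitary.coe_star, CStarRing.norm_mul_coe_unitary, CStarRing.norm_coe_unitary_mul])
      (fun r => by
        refine (norm_sum_le _ _).trans ?_
        calc ∑ i, ‖(t i : ℂ) * g (s i) r‖ ≤ ∑ i, t i * (C * ‖y‖ * ‖y‖) := by
              refine Finset.sum_le_sum fun i _ => ?_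
              rw [norm_mul, Complex.norm_real, Real.norm_of_nonneg (ht i)]
              exact mul_le_mul_of_nonneg_left (hgb _ _) (ht i)
          _ = C * ‖y‖ * ‖y‖ := by rw [← Finset.sum_mul, ht1, one_mul])
      (τ (star y * y) • (1 : B))
      (fun φ => by rw [hE.dixl φ (star y * y), map_smul, smul_eq_mul]) hε
    have e1 : E.E (fun r => ∑ i, (t i : ℂ) * g (s i) r) = ∑ i, (t i : ℂ) * E.E (g (s i)) := by
      rw [E.sum']
      refine Finset.sum_congr rfl fun i _ => ?_
      exact E.const_mul _ _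
    rw [e1] at hm2
    have hw := gt_weights hf hC y t s u r ht ht1 hu hu1
    have b1 : ‖∑ j, (u j : ℂ) • (star (r j : B) * (star y * y) * (r j : B))‖ ≤
        (τ (star y * y)).re + ε := by
      have := norm_le_norm_add_norm_sub' (∑ j, (u j : ℂ) •
        (star (r j : B) * (star y * y) * (r j : B))) (τ (star y * y) • (1 : B))
      rw [hnalg, hre] at this
      linarith
    have b2 : ‖∑ i, (t i : ℂ) • ((s i : B) * (y * star y) * star (s i : B))‖ ≤
        (τ (star y * y)).re + ε := by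
      have := norm_le_norm_add_norm_sub' (∑ i, (t i : ℂ) •
        ((s i : B) * (y * star y) * star (s i : B))) (τ (star y * y) • (1 : B))
      rw [hnalg, hre] at this
      linarith
    have b3 : (E.E (fun h => E.E (g h))).re ≤ (∑ i, (t i : ℂ) * E.E (g (s i))).re + ε := by
      have h1 := (Complex.abs_re_le_norm _).trans hn2
      rw [Complex.sub_re] at h1
      have h2 := (abs_le.1 h1).1
      linarith
    have b4 : (∑ i, (t i : ℂ) * E.E (g (s i))).re ≤
        (∑ j, (u j : ℂ) * ∑ i, (t i : ℂ) * g (s i) (r j)).re + ε := by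
      have h1 := (Complex.abs_re_le_norm _).trans hm2
      rw [Complex.sub_re] at h1
      have h2 := (abs_le.1 h1).1
      linarith
    have b5 : 3 * C * (‖∑ j, (u j : ℂ) • (star (r j : B) * (star y * y) * (r j : B))‖ +
        ‖∑ i, (t i : ℂ) • ((s i : B) * (y * star y) * star (s i : B))‖) ≤
        3 * C * (((τ (star y * y)).re + ε) + ((τ (star y * y)).re + ε)) :=
      mul_le_mul_of_nonneg_left (add_le_add b1 b2) (by positivity)
    have b6 := hw.trans b5
    have b7 : (∑ j, (u j : ℂ) * ∑ i, (t i : ℂ) * g (s i) (r j)).re ≤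
        3 * C * (((τ (star y * y)).re + ε) + ((τ (star y * y)).re + ε)) := b6
    nlinarith [b3, b4, b7]
  refine le_of_forall_pos_le_add fun δ hδ => ?_
  have h6 : 0 < 6 * C + 2 := by positivity
  have h7 := key (δ / (6 * C + 2)) (by positivity)
  rwa [mul_div_cancel₀ _ h6.ne'] at h7

end Y445.D3
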